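import Pool.Agent.Helper5.Core2.Defs

set_option autoImplicit false

/-! MP_fafe86_al, piece O9: in a minimal counterexample of class 2 the center has exponent 2. -/

namespace Pool.Agent.Helper20.Core2

open Subgroup Pool.Agent.Helper5.Core2

universe u

section Comm

variable {G : Type u} [Group G]

/-- The commutator `x y x⁻¹ y⁻¹`. -/
def cm (x y : G) : G := x * y * x⁻¹ * y⁻¹

theorem cm_eq_one {x y : G} : cm x y = 1 ↔ x * y = y * x := by
  unfold cm
  rw [mul_inv_eq_one, mul_inv_eq_iff_eq_mul]

theorem cm_mem (hcl : ∀ x : G, x ^ 2 ∈ center G) (x y : G) : cm x y ∈ center G := by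
  have : cm x y = x ^ 2 * (x⁻¹ * y) ^ 2 * (y⁻¹) ^ 2 := by
    unfold cm
    simp only [pow_two]
    group
  rw [this]
  exact mul_mem (mul_mem (hcl _) (hcl _)) (hcl _)

theorem cm_mul_left (hcl : ∀ x : G, x ^ 2 ∈ center G) (a b c : G) :
    cm (a * b) c = cm a c * cm b c := by
  have h1 := mem_center_iff.mp (cm_mem hcl b c) a
  have : cm (a * b) c = (a * cm b c) * c * a⁻¹ * c⁻¹ := by unfold cm; group
  rw [this, h1]
  have h2 := mem_center_iff.mp (cm_mem hcl b c) (cm a c)
  rw [h2]
  unfold cm; group

theorem cm_mul_right (hcl : ∀ x : G, x ^ 2 ∈ center G) (a b c : G) :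
    cm a (b * c) = cm a b * cm a c := by
  have h1 := mem_center_iff.mp (cm_mem hcl a c) b⁻¹
  have : cm a (b * c) = a * b * a⁻¹ * (cm a c * b⁻¹) := by unfold cm; group
  rw [this, ← h1]
  unfold cm; group

theorem cm_center_left {z : G} (hz : z ∈ center G) (g : G) : cm z g = 1 :=
  cm_eq_one.mpr (mem_center_iff.mp hz g).symm

theorem cm_center_right {z : G} (hz : z ∈ center G) (g : G) : cm g z = 1 :=
  cm_eq_one.mpr (mem_center_iff.mp hz g)

theorem cm_sq (hcl : ∀ x : G, x ^ 2 ∈ center G) (a b : G) : cm a b * cm a b = 1 := by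
  rw [← cm_mul_left hcl, ← pow_two]
  exact cm_center_left (hcl a) b

theorem cm_symm (hcl : ∀ x : G, x ^ 2 ∈ center G) (a b : G) : cm b a = cm a b := by
  have h1 := cm_sq hcl a b
  have h2 : cm b a = (cm a b)⁻¹ := by unfold cm; group
  rw [h2, inv_eq_iff_mul_eq_one, h1]

theorem cm_self (a : G) : cm a a = 1 := cm_eq_one.mpr rfl

end Comm

section Index

variable {G : Type u} [Group G]

/-- In a group of order at most `4` with all squares `1`, two independent elements fill the group. -/
theorem card_four {Q : Type u} [Group Q] [Finite Q] (hQ : Nat.card Q ≤ 4) (hsq : ∀ q : Q, q * q = 1)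
    {x y : Q} (hx : x ≠ 1) (hy : y ≠ 1) (hxy : x * y ≠ 1) (q : Q) :
    q = 1 ∨ q = x ∨ q = y ∨ q = x * y := by
  classical
  have := Fintype.ofFinite Q
  have hne : x ≠ y := by
    rintro rfl; exact hxy (hsq x)
  have h4 : ({1, x, y, x * y} : Finset Q).card = 4 := by
    rw [Finset.card_insert_of_notMem, Finset.card_insert_of_notMem, Finset.card_insert_of_notMem,
      Finset.card_singleton]
    · simp only [Finset.mem_singleton]
      intro h
      exact hx (by simpa using h)
    · simp only [Finset.mem_insert, Finset.mem_singleton, not_or]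
      refine ⟨hne, fun h => hy (by simpa using h)⟩
    · simp only [Finset.mem_insert, Finset.mem_singleton, not_or]
      exact ⟨fun h => hx h.symm, fun h => hy h.symm, fun h => hxy h.symm⟩
  have hu : ({1, x, y, x * y} : Finset Q) = Finset.univ := by
    apply Finset.eq_univ_of_card
    rw [h4]
    rw [Nat.card_eq_fintype_card] at hQ
    have := Finset.card_le_univ ({1, x, y, x * y} : Finset Q)
    rw [h4] at this
    omega
  have : q ∈ ({1, x, y, x * y} : Finset Q) := by rw [hu]; exact Finset.mem_univ _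
  simpa using this

/-- If `S ≤ A` with `S` normal, containing the squares of `A`, index at most `4` in `A`, and
`x, y, xy ∈ A \ S`, every element of `A` is in `S` up to one of `1, x, y, xy`. -/
theorem cover {S A : Subgroup G} [Finite G] [S.Normal] (hsq : ∀ g : G, g ^ 2 ∈ S)
    (hi : S.relIndex A ≤ 4) {x y : G} (hxA : x ∈ A) (hyA : y ∈ A) (hx : x ∉ S) (hy : y ∉ S)
    (hxy : x * y ∉ S) {g : G} (hg : g ∈ A) :
    ∃ e : G, (e = 1 ∨ e = x ∨ e = y ∨ e = x * y) ∧ ∃ s ∈ S, g = e * s := by
  have key := card_four (Q := A ⧸ S.subgroupOf A) hi (by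
      intro q
      induction q using QuotientGroup.induction_on with
      | H a =>
        rw [← QuotientGroup.mk_mul, QuotientGroup.eq_one_iff, mem_subgroupOf, ← pow_two]
        exact hsq _)
    (x := QuotientGroup.mk (⟨x, hxA⟩ : A)) (y := QuotientGroup.mk (⟨y, hyA⟩ : A))
    (by rw [Ne, QuotientGroup.eq_one_iff, mem_subgroupOf]; exact hx)
    (by rw [Ne, QuotientGroup.eq_one_iff, mem_subgroupOf]; exact hy)
    (by rw [← QuotientGroup.mk_mul, Ne, QuotientGroup.eq_one_iff, mem_subgroupOf]; exact hxy)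
    (QuotientGroup.mk (⟨g, hg⟩ : A))
  have conv : ∀ e : A, (QuotientGroup.mk (⟨g, hg⟩ : A) : A ⧸ S.subgroupOf A) = QuotientGroup.mk e →
      ∃ s ∈ S, g = (e : G) * s := by
    intro e he
    rw [eq_comm, QuotientGroup.eq, mem_subgroupOf] at he
    exact ⟨(e : G)⁻¹ * g, he, by group⟩
  rcases key with h | h | h | h
  · obtain ⟨s, hs, h'⟩ := conv 1 h
    exact ⟨1, Or.inl rfl, s, hs, h'⟩
  · obtain ⟨s, hs, h'⟩ := conv _ h
    exact ⟨x, Or.inr (Or.inl rfl), s, hs, h'⟩
  · obtain ⟨s, hs, h'⟩ := conv _ h
    exact ⟨y, Or.inr (Or.inr (Or.inl rfl)), s, hs, h'⟩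
  · rw [← QuotientGroup.mk_mul] at h
    obtain ⟨s, hs, h'⟩ := conv _ h
    exact ⟨x * y, Or.inr (Or.inr (Or.inr rfl)), s, hs, h'⟩

/-- Lower bound for the relative index. -/
theorem four_le {S A : Subgroup G} [Finite G] (h2 : IsPGroup 2 G) {x y : G} (hxA : x ∈ A)
    (hyA : y ∈ A) (hx : x ∉ S) (hy : y ∉ S) (hxy : x * y ∉ S) : 4 ≤ S.relIndex A := by
  obtain ⟨n, hn⟩ := IsPGroup.index (h2.to_subgroup A) (S.subgroupOf A)
  change S.relIndex A = 2 ^ n at hn
  rcases Nat.lt_or_ge n 2 with h | h
  · exfalso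
    interval_cases n
    · have : S.relIndex A = 1 := by simpa using hn
      rw [relIndex_eq_one] at this
      exact hx (this hxA)
    · have h3 : (S.subgroupOf A).index = 2 := by
        change S.relIndex A = 2
        simpa using hn
      have := (mul_mem_iff_of_index_two h3 (a := ⟨x, hxA⟩) (b := ⟨y, hyA⟩)).mpr
        (by simp [mem_subgroupOf, hx, hy])
      exact hxy this
  · rw [hn]
    calc 4 = 2 ^ 2 := by norm_num
      _ ≤ 2 ^ n := Nat.pow_le_pow_right (by norm_num) h

end Index

section TTcrit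

variable {G : Type u} [Group G]

theorem TT_of_closure {T : Set G} (hT : ∀ x ∈ T, ∀ y ∈ T, x * y = y * x)
    (hsq : Sq G ≤ closure T) (hi : (closure T).index ≤ 4) : TT G := by
  refine ⟨closure T, hsq, ?_, hi⟩
  have h1 : closure T ≤ centralizer (centralizer T : Set G) :=
    closure_le_centralizer_centralizer T
  have h2 : closure T ≤ centralizer T := by
    rw [closure_le]
    intro x hx
    rw [SetLike.mem_coe, mem_centralizer_iff]
    intro y hy
    exact hT y hy x hx
  intro x hx y hy
  have := h1 hx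
  rw [mem_centralizer_iff] at this
  exact (this y (h2 hy)).symm

/-- Two commuting elements independent modulo the center. -/
theorem TT_of_commute [Finite G] (h2 : IsPGroup 2 G) (hΦ : Sq G ≤ center G)
    (hidx : (center G).index ≤ 16) {g k : G} (hg : g ∉ center G) (hk : k ∉ center G)
    (hgk : g * k ∉ center G) (hcomm : g * k = k * g) : TT G := by
  have hle : center G ≤ closure ((center G : Set G) ∪ {g, k}) := by
    intro x hx
    exact subset_closure (Or.inl hx)
  have hgm : g ∈ closure ((center G : Set G) ∪ {g, k}) := subset_closure (by simp)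
  have hkm : k ∈ closure ((center G : Set G) ∪ {g, k}) := subset_closure (by simp)
  refine TT_of_closure (T := (center G : Set G) ∪ {g, k}) ?_ (hΦ.trans hle) ?_
  · rintro x (hx | hx | hx) y (hy | hy | hy)
    · exact mem_center_iff.mp hy x
    · exact (mem_center_iff.mp hx y).symm
    · exact (mem_center_iff.mp hx y).symm
    · exact mem_center_iff.mp hy x
    · rw [hx, hy]
    · rw [Set.mem_singleton_iff] at hy
      rw [hx, hy, hcomm]
    · exact mem_center_iff.mp hy x
    · rw [Set.mem_singleton_iff] at hx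
      rw [hx, hy, hcomm]
    · rw [Set.mem_singleton_iff] at hx hy
      rw [hx, hy]
  · have h4 := four_le h2 hgm hkm hg hk hgk
    have h5 := relIndex_mul_index hle
    by_contra hcon
    push Not at hcon
    have : 4 * 5 ≤ (center G).relIndex (closure ((center G : Set G) ∪ {g, k})) *
        (closure ((center G : Set G) ∪ {g, k})).index := Nat.mul_le_mul h4 hcon
    omega

/-- Small center index. -/
theorem TT_of_index_eight [Finite G] (hΦ : Sq G ≤ center G)
    (hidx : (center G).index ≤ 8) : TT G := by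
  by_cases hc : ∀ g, g ∈ center G
  · refine ⟨center G, hΦ, fun x _ y hy => mem_center_iff.mp hy x, ?_⟩
    have : center G = ⊤ := eq_top_iff.mpr fun g _ => hc g
    rw [this, index_top]
    norm_num
  · push Not at hc
    obtain ⟨g, hg⟩ := hc
    have hle : center G ≤ closure ((center G : Set G) ∪ {g}) := by
      intro x hx
      exact subset_closure (Or.inl hx)
    have hgm : g ∈ closure ((center G : Set G) ∪ {g}) := subset_closure (by simp)
    refine TT_of_closure (T := (center G : Set G) ∪ {g}) ?_ (hΦ.trans hle) ?_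
    · rintro x (hx | hx) y (hy | hy)
      · exact mem_center_iff.mp hy x
      · exact (mem_center_iff.mp hx y).symm
      · exact mem_center_iff.mp hy x
      · rw [Set.mem_singleton_iff] at hx hy
        rw [hx, hy]
    · have h5 := relIndex_mul_index hle
      have h6 : (center G).relIndex (closure ((center G : Set G) ∪ {g})) ≠ 0 :=
        index_ne_zero_of_finite
      have h7 : (center G).relIndex (closure ((center G : Set G) ∪ {g})) ≠ 1 := by
        rw [Ne, relIndex_eq_one]
        intro h
        exact hg (h hgm)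
      by_contra hcon
      push Not at hcon
      have : 2 * 5 ≤ (center G).relIndex (closure ((center G : Set G) ∪ {g})) *
          (closure ((center G : Set G) ∪ {g})).index := Nat.mul_le_mul (by omega) hcon
      omega

theorem mem_sup_zpowers {K : Subgroup G} {c s : G} (hc : c ∈ center G) (hc2 : c * c = 1)
    (hs : s ∈ K ⊔ zpowers c) : s ∈ K ∨ s * c ∈ K := by
  have hn : (zpowers c).Normal := by
    refine ⟨fun n hn g => ?_⟩
    have : n ∈ center G := (zpowers_le.mpr hc) hn
    rw [mem_center_iff.mp this g, mul_inv_cancel_right]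
    exact hn
  rw [mem_sup_of_normal_right] at hs
  obtain ⟨y, hy, z, hz, rfl⟩ := hs
  obtain ⟨n, rfl⟩ := mem_zpowers_iff.mp hz
  rcases Int.even_or_odd n with ⟨m, hm⟩ | ⟨m, hm⟩
  · left
    rw [hm, zpow_add, ← (Commute.refl c).mul_zpow, hc2, one_zpow, mul_one]
    exact hy
  · right
    have : y * c ^ n * c = y * (c * c) ^ (m + 1) := by
      rw [(Commute.refl c).mul_zpow, ← zpow_add, mul_assoc, ← zpow_add_one, hm]
      congr 2
      ring
    rw [this, hc2, one_zpow, mul_one]
    exact hy

end TTcrit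

section Main

variable {G : Type u} [Group G]

/-- The preimage of the center of `G ⧸ N`. -/
def RN (N : Subgroup G) [N.Normal] : Subgroup G := (center (G ⧸ N)).comap (QuotientGroup.mk' N)

instance RN_normal (N : Subgroup G) [N.Normal] : (RN N).Normal :=
  Subgroup.Normal.comap inferInstance _

theorem mem_RN {N : Subgroup G} [N.Normal] {x : G} : x ∈ RN N ↔ ∀ g, cm g x ∈ N := by
  unfold RN
  rw [mem_comap, mem_center_iff]
  constructor
  · intro h g
    have := h (QuotientGroup.mk' N g)
    rw [← QuotientGroup.eq_one_iff]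
    have h2 : ((cm g x : G) : G ⧸ N) = cm (G := G ⧸ N) (QuotientGroup.mk' N g) (QuotientGroup.mk' N x) := rfl
    rw [h2]
    exact cm_eq_one.mpr this
  · intro h g
    obtain ⟨g, rfl⟩ := QuotientGroup.mk'_surjective N g
    have := h g
    rw [← QuotientGroup.eq_one_iff] at this
    exact cm_eq_one.mp this

theorem mem_zpowers_two {t s : G} (ht : t * t = 1) (hs : s ∈ zpowers t) : s = 1 ∨ s = t := by
  obtain ⟨n, rfl⟩ := mem_zpowers_iff.mp hs
  rcases Int.even_or_odd n with ⟨m, hm⟩ | ⟨m, hm⟩
  · left
    rw [hm, zpow_add, ← (Commute.refl t).mul_zpow, ht, one_zpow]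
  · right
    rw [hm, zpow_add_one, zpow_mul, zpow_two, ht, one_zpow, one_mul]

/-- In a `2`-group, a central element with nontrivial square has a power whose square is an
involution. -/
theorem exists_order_four (h2 : IsPGroup 2 G) {ζ : G} (hζ2 : ζ ^ 2 ≠ 1) :
    ∃ n : ℕ, (ζ ^ n) ^ 2 ≠ 1 ∧ ((ζ ^ n) ^ 2) ^ 2 = 1 := by
  obtain ⟨k, hk⟩ := h2 ζ
  induction k with
  | zero =>
    exfalso
    apply hζ2
    have : ζ = 1 := by simpa using hk
    rw [this, one_pow]
  | succ k ih =>
    by_cases h : ζ ^ 2 ^ k = 1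
    · exact ih h
    · -- k ≥ 1 ; ζ^(2^k) is an involution
      rcases k with _ | k
      · exfalso
        apply hζ2
        simpa using hk
      · refine ⟨2 ^ k, ?_, ?_⟩
        · rw [← pow_mul, ← pow_succ]; exact h
        · rw [← pow_mul, ← pow_mul, ← hk]
          congr 1
          ring

theorem class2_elem [Finite G]
    (exists_mono : ∀ (K : Subgroup G) (_ : K.Normal) {z : G} (_ : z ∉ K),
      ∃ N : Subgroup G, ∃ _ : N.Normal, K ≤ N ∧ z ∉ N ∧ Mono (QuotientGroup.mk z : G ⧸ N))
    (toQuotient : ∀ (N : Subgroup G) [N.Normal], IsC (G ⧸ N))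
    (Zc : ∀ {H : Type u} [Group H] [Finite H] (_ : IsC H) {z : H} (_ : Mono z)
      (_ : ∀ x : H, x ^ 2 ∈ center H) {ζ : H} (_ : ζ ∈ center H) (_ : ζ ^ 2 ≠ 1),
      (center H).index ≤ 4)
    (h : MinCE G) (hcl : ∀ x : G, x ^ 2 ∈ center G) :
    ∀ g ∈ center G, g ^ 2 = 1 := by
  by_contra hcon
  push Not at hcon
  obtain ⟨ζ', hζ', hζ2'⟩ := hcon
  have h2 := h.c.two
  obtain ⟨n, hn1, hn2⟩ := exists_order_four h2 hζ2'
  set ζ := ζ' ^ n with hζdef
  have hζ : ζ ∈ center G := pow_mem hζ' n
  set ω := ζ ^ 2 with hωdef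
  have hωc : ω ∈ center G := pow_mem hζ 2
  have hω1 : ω ≠ 1 := hn1
  have hωω : ω * ω = 1 := by rw [← pow_two]; exact hn2
  have hΦ : Sq G ≤ center G := by
    unfold Sq
    rw [closure_le]
    rintro _ ⟨x, rfl⟩
    exact hcl x
  -- good normal subgroups
  have good : ∀ (N : Subgroup G) [N.Normal], ω ∉ N → Mono (QuotientGroup.mk ω : G ⧸ N) →
      (RN N).index ≤ 4 := by
    intro N _ hN hM
    unfold RN
    rw [index_comap_of_surjective _ (QuotientGroup.mk'_surjective N)]
    refine Zc (toQuotient N) hM ?_ (ζ := QuotientGroup.mk ζ) ?_ ?_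
    · intro x
      obtain ⟨x, rfl⟩ := QuotientGroup.mk'_surjective N x
      rw [mem_center_iff]
      intro g
      obtain ⟨g, rfl⟩ := QuotientGroup.mk'_surjective N g
      rw [← map_pow, ← map_mul, ← map_mul, mem_center_iff.mp (hcl x)]
    · rw [mem_center_iff]
      intro g
      obtain ⟨g, rfl⟩ := QuotientGroup.mk'_surjective N g
      change QuotientGroup.mk' N g * QuotientGroup.mk' N ζ = QuotientGroup.mk' N ζ * _
      rw [← map_mul, ← map_mul, mem_center_iff.mp hζ]
    · rw [← QuotientGroup.mk_pow, Ne, QuotientGroup.eq_one_iff]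
      exact hN
  -- the subgroup A
  have hωn : (zpowers ω).Normal := by
    refine ⟨fun n hn g => ?_⟩
    have : n ∈ center G := (zpowers_le.mpr hωc) hn
    rw [mem_center_iff.mp this g, mul_inv_cancel_right]
    exact hn
  obtain ⟨A, hA1, hA2, hA3, hA4⟩ := h.quot (zpowers ω) hωn (by
    intro hbot
    apply hω1
    have : ω ∈ zpowers ω := mem_zpowers ω
    rw [hbot, mem_bot] at this
    exact this)
  have hAcm : ∀ x ∈ A, ∀ y ∈ A, cm x y = 1 ∨ cm x y = ω :=
    fun x hx y hy => mem_zpowers_two hωω (hA3 x hx y hy)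
  have hZA : center G ≤ A := h.center_le.trans hA1
  obtain ⟨x, hx, x', hx', hxx⟩ : ∃ x ∈ A, ∃ x' ∈ A, cm x x' = ω := by
    by_contra hcon
    push Not at hcon
    refine h.notT ⟨A, hA1, fun x hx y hy => ?_, hA4⟩
    rcases hAcm x hx y hy with h1 | h1
    · exact cm_eq_one.mp h1
    · exact absurd h1 (hcon x hx y hy)
  -- existence of good N avoiding w
  have exgood : ∀ w ∈ center G, w * w = 1 → w ≠ 1 → ∃ N : Subgroup G, ∃ _ : N.Normal,
      ω ∉ N ∧ w ∉ N ∧ Mono (QuotientGroup.mk ω : G ⧸ N) := by
    intro w hw hww hw1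
    by_cases hwω : w = ω
    · obtain ⟨N, hN, -, h1, h2⟩ := exists_mono ⊥ inferInstance (z := ω) (by
        rw [mem_bot]; exact hω1)
      exact ⟨N, hN, h1, hwω ▸ h1, h2⟩
    · have hc : w * ω ∈ center G := mul_mem hw hωc
      have hn : (zpowers (w * ω)).Normal := by
        refine ⟨fun n hn g => ?_⟩
        have : n ∈ center G := (zpowers_le.mpr hc) hn
        rw [mem_center_iff.mp this g, mul_inv_cancel_right]
        exact hn
      have hsq : (w * ω) * (w * ω) = 1 := by
        rw [mul_assoc, ← mul_assoc ω, ← mem_center_iff.mp hωc w, mul_assoc w, hωω, mul_one, hww]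
      obtain ⟨N, hN, h0, h1, h2⟩ := exists_mono (zpowers (w * ω)) hn (z := ω) (by
        intro hmem
        rcases mem_zpowers_two hsq hmem with h3 | h3
        · exact hω1 h3
        · exact hw1 (by simpa using h3.symm))
      refine ⟨N, hN, h1, fun hwN => h1 ?_, h2⟩
      have h4 : w * ω ∈ N := h0 (mem_zpowers _)
      have : ω = w⁻¹ * (w * ω) := by group
      rw [this]
      exact mul_mem (inv_mem hwN) h4
  -- R ⊓ A
  have key : ∀ (N : Subgroup G) [N.Normal], ω ∉ N → Mono (QuotientGroup.mk ω : G ⧸ N) →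
      ∀ a ∈ A, (∀ b ∈ A, a * b = b * a) → a ∈ RN N := by
    intro N _ hN hM a ha hab
    have hle1 : A ⊓ RN N ≤ A ⊓ centralizer (A : Set G) := by
      intro s hs
      refine ⟨hs.1, mem_centralizer_iff.mpr ?_⟩
      intro b hb
      rcases hAcm b hb s hs.1 with h1 | h1
      · exact cm_eq_one.mp h1
      · exact absurd (h1 ▸ mem_RN.mp hs.2 b) hN
    have hnot : ∀ s : G, s ∈ A ⊓ centralizer (A : Set G) → ∀ b ∈ A, cm s b = 1 := by
      intro s hs b hb
      exact cm_eq_one.mpr (mem_centralizer_iff.mp hs.2 b hb).symm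
    have h4 : 4 ≤ (A ⊓ centralizer (A : Set G)).relIndex A := by
      refine four_le h2 hx hx' ?_ ?_ ?_
      · intro hs
        exact hω1 (hxx ▸ hnot x hs x' hx')
      · intro hs
        exact hω1 (by rw [← hxx, ← cm_symm hcl]; exact hnot x' hs x hx)
      · intro hs
        have := hnot _ hs x' hx'
        rw [cm_mul_left hcl, cm_self, mul_one, hxx] at this
        exact hω1 this
    have h5 : (A ⊓ RN N).relIndex A ≤ 4 := by
      rw [inf_relIndex_left]
      exact (Nat.le_of_dvd (Nat.pos_of_ne_zero index_ne_zero_of_finite)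
        (relIndex_dvd_index_of_normal (RN N) A)).trans (good N hN hM)
    have h6 := relIndex_mul_relIndex _ _ _ hle1 (inf_le_left : A ⊓ centralizer (A : Set G) ≤ A)
    have h7 : (A ⊓ RN N).relIndex (A ⊓ centralizer (A : Set G)) = 1 := by
      have h8 : (A ⊓ RN N).relIndex (A ⊓ centralizer (A : Set G)) ≠ 0 := index_ne_zero_of_finite
      by_contra hcon
      have h9 : 2 * 4 ≤ (A ⊓ RN N).relIndex (A ⊓ centralizer (A : Set G)) *
        (A ⊓ centralizer (A : Set G)).relIndex A := Nat.mul_le_mul (by omega) h4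
      omega
    rw [relIndex_eq_one] at h7
    exact (h7 ⟨ha, mem_centralizer_iff.mpr fun b hb => (hab b hb).symm⟩).2
  have hZA' : ∀ a ∈ A, (∀ b ∈ A, a * b = b * a) → a ∈ center G := by
    intro a ha hab
    rw [mem_center_iff]
    intro g
    by_contra hcon
    have hw1 : cm g a ≠ 1 := fun hc => hcon (cm_eq_one.mp hc)
    obtain ⟨N, _, h1, h2, h3⟩ := exgood (cm g a) (cm_mem hcl g a) (cm_sq hcl g a) hw1
    exact h2 (mem_RN.mp (key N h1 h3 a ha hab) g)
  -- index of the center
  have hi4 : (center G).relIndex A ≤ 4 := by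
    obtain ⟨N, _, h1, -, h3⟩ := exgood ω hωc hωω hω1
    have hle : A ⊓ RN N ≤ center G := by
      intro s hs
      refine hZA' s hs.1 fun b hb => ?_
      rcases hAcm b hb s hs.1 with h4 | h4
      · exact (cm_eq_one.mp h4).symm
      · exact absurd (h4 ▸ mem_RN.mp hs.2 b) h1
    have h5 : (A ⊓ RN N).relIndex A ≤ 4 := by
      rw [inf_relIndex_left]
      exact (Nat.le_of_dvd (Nat.pos_of_ne_zero index_ne_zero_of_finite)
        (relIndex_dvd_index_of_normal (RN N) A)).trans (good N h1 h3)
    exact (Nat.le_of_dvd (Nat.pos_of_ne_zero index_ne_zero_of_finite)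
      (relIndex_dvd_of_le_left A hle)).trans h5
  have hmi := relIndex_mul_index hZA
  have hi16 : (center G).index ≤ 16 := by
    rw [← hmi]
    exact (Nat.mul_le_mul hi4 hA4).trans (by norm_num)
  -- no commuting independent pairs
  have NC : ∀ g k : G, g ∉ center G → k ∉ center G → g * k ∉ center G → cm g k ≠ 1 := by
    intro g k hg hk hgk hc
    exact h.notT (TT_of_commute h2 hΦ hi16 hg hk hgk (cm_eq_one.mp hc))
  have hi2 : ¬ A.index ≤ 2 := by
    intro hi2
    apply h.notT
    apply TT_of_index_eight hΦ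
    rw [← hmi]
    exact (Nat.mul_le_mul hi4 hi2).trans (by norm_num)
  have hAi : A.index ≠ 0 := index_ne_zero_of_finite
  obtain ⟨y, hy⟩ : ∃ y, y ∉ A := by
    by_contra hcon
    push Not at hcon
    have : A = ⊤ := eq_top_iff.mpr fun g _ => hcon g
    rw [this, index_top] at hi2
    omega
  obtain ⟨v, hv, hyv⟩ : ∃ v, v ∉ A ∧ y * v ∉ A := by
    by_contra hcon
    push Not at hcon
    have h3 : A.index = 2 := by
      rw [index_eq_two_iff']
      refine ⟨y, fun b => ?_⟩
      by_cases hb : b ∈ A
      · right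
        refine ⟨hb, fun hc => hy ?_⟩
        have : y = (y * b) * b⁻¹ := by group
        rw [this]
        exact mul_mem hc (inv_mem hb)
      · left
        exact ⟨hcon b hb, hb⟩
    omega
  have hyZ : ∀ e ∈ A, y * e ∉ center G := by
    intro e he hc
    apply hy
    have : y = (y * e) * e⁻¹ := by group
    rw [this]
    exact mul_mem (hZA hc) (inv_mem he)
  have hvZ : ∀ e ∈ A, v * e ∉ center G := by
    intro e he hc
    apply hv
    have : v = (v * e) * e⁻¹ := by group
    rw [this]
    exact mul_mem (hZA hc) (inv_mem he)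
  have hyvZ : ∀ e ∈ A, y * (v * e) ∉ center G := by
    intro e he hc
    apply hyv
    have : y * v = (y * (v * e)) * e⁻¹ := by group
    rw [this]
    exact mul_mem (hZA hc) (inv_mem he)
  have hy0 : y ∉ center G := fun hc => hy (hZA hc)
  have hx0 : x ∉ center G := by
    intro hc
    exact hω1 (by rw [← hxx]; exact cm_center_left hc _)
  have hx0' : x' ∉ center G := by
    intro hc
    exact hω1 (by rw [← hxx]; exact cm_center_right hc _)
  have hxx0 : x * x' ∉ center G := by
    intro hc
    have := cm_center_left hc x'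
    rw [cm_mul_left hcl, cm_self, mul_one, hxx] at this
    exact hω1 this
  have hac := cm_mem hcl y x
  have hbc := cm_mem hcl y x'
  have haa := cm_sq hcl y x
  have hbb := cm_sq hcl y x'
  have hne : ∀ e ∈ A, cm y v ≠ cm y e := by
    intro e he hc
    have := NC y (v * e) hy0 (hvZ e he) (hyvZ e he)
    apply this
    rw [cm_mul_right hcl, hc, cm_sq hcl]
  have hxy : cm y (x * x') = cm y x * cm y x' := cm_mul_right hcl y x x'
  have ha1 : cm y x ≠ 1 := NC y x hy0 hx0 (hyZ x hx)
  have hb1 : cm y x' ≠ 1 := NC y x' hy0 hx0' (hyZ x' hx')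
  have hab1 : cm y x * cm y x' ≠ 1 := by
    rw [← hxy]
    exact NC y (x * x') hy0 hxx0 (hyZ _ (mul_mem hx hx'))
  have haω : cm y x ≠ ω := by
    intro hc
    have := NC (y * x') x (hyZ x' hx') hx0 (by
      rw [mul_assoc]; exact hyZ _ (mul_mem hx' hx))
    apply this
    rw [cm_mul_left hcl, hc, cm_symm hcl x x', hxx, hωω]
  have hbω : cm y x' ≠ ω := by
    intro hc
    have := NC (y * x) x' (hyZ x hx) hx0' (by
      rw [mul_assoc]; exact hyZ _ (mul_mem hx hx'))
    apply this
    rw [cm_mul_left hcl, hc, hxx, hωω]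
  have habω : cm y x * cm y x' ≠ ω := by
    intro hc
    have := NC (y * x') (x * x') (hyZ x' hx') hxx0 (by
      rw [mul_assoc]; exact hyZ _ (mul_mem hx' (mul_mem hx hx')))
    apply this
    rw [cm_mul_left hcl, hxy, hc, cm_mul_right hcl x' x x', cm_self, mul_one, cm_symm hcl x x',
      hxx, hωω]
  have hwc := cm_mem hcl y v
  have hww := cm_sq hcl y v
  have hwa := hne x hx
  have hwb := hne x' hx'
  have hwab := hne (x * x') (mul_mem hx hx')
  rw [hxy] at hwab
  have hw1 : cm y v ≠ 1 := by
    have := hne 1 (one_mem A)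
    rwa [show cm y 1 = 1 from cm_eq_one.mpr (by simp)] at this
  set a := cm y x with hadef
  set b := cm y x' with hbdef
  set w := cm y v with hwdef
  have hcc : w * ω ∈ center G := mul_mem hwc hωc
  have com : ∀ s ∈ center G, ∀ t : G, t * s = s * t := fun s hs t => mem_center_iff.mp hs t
  have hcsq : (w * ω) * (w * ω) = 1 := by
    rw [mul_assoc, ← mul_assoc ω, ← com ω hωc w, mul_assoc w, hωω, mul_one, hww]
  have hKc : (zpowers a ⊔ zpowers b) ⊔ zpowers (w * ω) ≤ center G :=
    sup_le (sup_le (zpowers_le.mpr hac) (zpowers_le.mpr hbc)) (zpowers_le.mpr hcc)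
  have hKn : ((zpowers a ⊔ zpowers b) ⊔ zpowers (w * ω)).Normal := by
    refine ⟨fun n hn g => ?_⟩
    rw [com n (hKc hn) g, mul_inv_cancel_right]
    exact hn
  have hmem2 : ∀ s, s ∈ zpowers a ⊔ zpowers b → s = 1 ∨ s = a ∨ s = b ∨ s = a * b := by
    intro s hs
    have hinv : b⁻¹ = b := inv_eq_of_mul_eq_one_left hbb
    rcases mem_sup_zpowers hbc hbb hs with h1 | h1
    · rcases mem_zpowers_two haa h1 with h3 | h3
      · exact Or.inl h3
      · exact Or.inr (Or.inl h3)
    · rcases mem_zpowers_two haa h1 with h3 | h3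
      · right; right; left
        rw [mul_eq_one_iff_eq_inv, hinv] at h3
        exact h3
      · right; right; right
        rw [← eq_mul_inv_iff_mul_eq, hinv] at h3
        exact h3
  have hK : ω ∉ (zpowers a ⊔ zpowers b) ⊔ zpowers (w * ω) := by
    intro hmem
    rcases mem_sup_zpowers hcc hcsq hmem with h1 | h1
    · rcases hmem2 _ h1 with h3 | h3 | h3 | h3
      · exact hω1 h3
      · exact haω h3.symm
      · exact hbω h3.symm
      · exact habω h3.symm
    · have hh : ω * (w * ω) = w := by
        rw [← mul_assoc, ← com ω hωc w, mul_assoc, hωω, mul_one]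
      rw [hh] at h1
      rcases hmem2 _ h1 with h3 | h3 | h3 | h3
      · exact hw1 h3
      · exact hwa h3
      · exact hwb h3
      · exact hwab h3
  obtain ⟨N, hNn, hN0, hN1, hN2⟩ := exists_mono _ hKn hK
  have haN : a ∈ N := hN0 (le_sup_left (a := zpowers a ⊔ zpowers b)
    (le_sup_left (a := zpowers a) (mem_zpowers a)))
  have hbN : b ∈ N := hN0 (le_sup_left (a := zpowers a ⊔ zpowers b)
    (le_sup_right (a := zpowers a) (mem_zpowers b)))
  have hwωN : w * ω ∈ N := hN0 (le_sup_right (a := zpowers a ⊔ zpowers b) (mem_zpowers _))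
  obtain ⟨e, he, s, hs, hves⟩ := cover (S := RN N) (A := ⊤) (x := x) (y := x') (g := v)
    (by
      intro g
      rw [mem_RN]
      intro k
      rw [cm_center_right (hcl g)]
      exact one_mem N)
    (by rw [relIndex_top_right]; exact good N hN1 hN2)
    (mem_top _) (mem_top _)
    (by
      intro hc
      have := mem_RN.mp hc x'
      rw [cm_symm hcl x x', hxx] at this
      exact hN1 this)
    (by
      intro hc
      have := mem_RN.mp hc x
      rw [hxx] at this
      exact hN1 this)
    (by
      intro hc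
      have := mem_RN.mp hc x
      rw [cm_mul_right hcl, cm_self, one_mul, hxx] at this
      exact hN1 this)
    (mem_top _)
  have hwN : w ∈ N := by
    rw [hwdef, hves, cm_mul_right hcl]
    refine mul_mem ?_ (mem_RN.mp hs y)
    rcases he with rfl | rfl | rfl | rfl
    · rw [show cm y 1 = 1 from cm_eq_one.mpr (by simp)]
      exact one_mem N
    · exact haN
    · exact hbN
    · rw [hxy]
      exact mul_mem haN hbN
  apply hN1
  have : ω = w⁻¹ * (w * ω) := by group
  rw [this]
  exact mul_mem (inv_mem hwN) hwωN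

end Main

end Pool.Agent.Helper20.Core2
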